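import Mathlib
import Pool.Agent.Helper113.FTable2

set_option autoImplicit false

universe u

namespace Pool.Agent.Results.MP_e7ecb4_lc.SingularReduction

/-- `P ∈ 𝒟(μ)`: the partially ordered set `P` contains no antichain (set of pairwise incomparable
elements) of cardinality `μ`. -/
def NoAntichain (μ : Cardinal.{u}) (P : Type u) [PartialOrder P] : Prop :=
  ¬ ∃ A : Set P, IsAntichain (· ≤ ·) A ∧ Cardinal.mk A = μ

/-- `P` is a union of fewer than `lam` ideals (`Order.Ideal`: nonempty up-directed initial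
segments). -/
def UnionOfFewer (lam : Cardinal.{u}) (P : Type u) [PartialOrder P] : Prop :=
  ∃ S : Set (Order.Ideal P), Cardinal.mk S < lam ∧ ∀ x : P, ∃ I ∈ S, x ∈ I

/-- `F μ` is the least cardinal `lam` such that every `P ∈ 𝒟(μ)` is a union of fewer than `lam`
ideals. -/
noncomputable def F (μ : Cardinal.{u}) : Cardinal.{u} :=
  sInf {lam | ∀ (P : Type u) [PartialOrder P], NoAntichain μ P → UnionOfFewer lam P}

theorem lower {μ lam : Cardinal.{u}}
    (hlam : ∀ (P : Type u) [PartialOrder P], NoAntichain μ P → UnionOfFewer lam P) : μ ≤ lam := by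
  by_contra hlt
  rw [not_le] at hlt
  have h2 : NoAntichain μ (Pool.Agent.Helper113.F.Disc lam.out) := by
    rintro ⟨A, _, hA⟩
    have h3 : Cardinal.mk A ≤ lam := by
      calc Cardinal.mk A ≤ Cardinal.mk (Pool.Agent.Helper113.F.Disc lam.out) :=
            Cardinal.mk_set_le A
        _ = Cardinal.mk lam.out := rfl
        _ = lam := Cardinal.mk_out lam
    rw [hA] at h3
    exact absurd h3 (not_le.2 hlt)
  obtain ⟨S, hS1, hS2⟩ := hlam (Pool.Agent.Helper113.F.Disc lam.out) h2
  exact absurd (Pool.Agent.Helper113.F.disc_lower S hS2) (not_le.2 hS1)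

theorem value {μ lam : Cardinal.{u}}
    (h1 : ∀ (P : Type u) [PartialOrder P], NoAntichain μ P → UnionOfFewer lam P)
    (h2 : ∀ lam' : Cardinal.{u},
      (∀ (P : Type u) [PartialOrder P], NoAntichain μ P → UnionOfFewer lam' P) → lam ≤ lam') :
    F μ = lam :=
  le_antisymm (csInf_le' h1) (le_csInf ⟨lam, h1⟩ h2)

/-- In ZFC, `F(μ) = μ` at `μ = ℵ₀` and at every singular strong limit cardinal `μ`. Consequently, if
every infinite limit cardinal is a strong limit (in particular under GCH), then `F(μ) = μ` holds for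
all infinite cardinals `μ` if and only if it holds for all regular uncountable cardinals `μ`. -/
theorem result :
    (F Cardinal.aleph0.{u} = Cardinal.aleph0) ∧
    (∀ μ : Cardinal.{u}, μ.IsSingular → μ.IsStrongLimit → F μ = μ) ∧
    ((∀ μ : Cardinal.{u}, Cardinal.aleph0 ≤ μ → Order.IsSuccLimit μ → μ.IsStrongLimit) →
      ((∀ μ : Cardinal.{u}, Cardinal.aleph0 ≤ μ → F μ = μ) ↔
        ∀ μ : Cardinal.{u}, μ.IsRegular → Cardinal.aleph0 < μ → F μ = μ)) := by
  have h0 : F Cardinal.aleph0.{u} = Cardinal.aleph0 := by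
    refine value ?_ (fun lam' h => lower h)
    intro P _ hP
    exact Pool.Agent.Helper113.F.ideals_of_cov
      (Pool.Agent.Helper113.F.weakly_cov Cardinal.isRegular_aleph0 Cardinal.isStrongLimit_aleph0
        (Pool.Agent.Helper113.F.pow_of_strongLimit Cardinal.isRegular_aleph0
          Cardinal.isStrongLimit_aleph0.isStrongPrelimit)
        Pool.Agent.Helper113.F.limitProp_aleph0 (Pool.Agent.Helper113.F.lt_of_noAntichain hP))
  have h1 : ∀ μ : Cardinal.{u}, μ.IsSingular → μ.IsStrongLimit → F μ = μ := fun μ hμ hsl =>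
    value (fun P _ hP => Pool.Agent.Helper113.F.final hμ hsl hP) (fun lam' h => lower h)
  refine ⟨h0, h1, fun hlim => ⟨fun h μ _ hμ => h μ hμ.le, fun h μ hinf => ?_⟩⟩
  rcases Cardinal.isRegular_or_isSingular hinf with hr | hs
  · rcases eq_or_lt_of_le hinf with rfl | hlt
    · exact h0
    · exact h μ hr hlt
  · exact h1 μ hs (hlim μ hinf hs.isSuccLimit)

end Pool.Agent.Results.MP_e7ecb4_lc.SingularReduction
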